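import Pool.Agent.KS6_51.QT.Eval

set_option autoImplicit false

/-!
# Which truncations of the basic hypergeometric sum vanish modulo `Φ_n(q)` and `Φ_n(q)²`

For every odd `n` and every `N` the sum `S_N(q)` is `≡ 0` modulo `Φ_n(q)²` if and only if it is
`≡ 0` modulo `Φ_n(q)`, and this happens exactly when `n ≡ 3 (mod 4)` and `N mod n ≥ (n-1)/2`.
-/

namespace Pool.Agent.Results.MP_5ca353_nt.ExactTruncations

open Polynomial Finset

noncomputable section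

/-- the indeterminate `q` -/
def q : RatFunc ℚ := RatFunc.X

/-- the `q`-shifted factorial `(a;p)_k = ∏_{i<k} (1 - a p^i)` -/
def poch (a p : RatFunc ℚ) (k : ℕ) : RatFunc ℚ := ∏ i ∈ range k, (1 - a * p ^ i)

/-- `A_k(q) = (q;q^2)_k / (q^2;q^2)_k` -/
def A (k : ℕ) : RatFunc ℚ := poch q (q ^ 2) k / poch (q ^ 2) (q ^ 2) k

/-- `B_k(q) = (q^2;q^4)_k / (q^4;q^4)_k` -/
def B (k : ℕ) : RatFunc ℚ := poch (q ^ 2) (q ^ 4) k / poch (q ^ 4) (q ^ 4) k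

/-- `c_k(q) = A_k(q)^2 B_k(q) q^{2k}` -/
def c (k : ℕ) : RatFunc ℚ := A k ^ 2 * B k * q ^ (2 * k)

/-- `S_N(q) = ∑_{k=0}^N c_k(q)` -/
def S (N : ℕ) : RatFunc ℚ := ∑ k ∈ range (N + 1), c k

/-- `F ≡ 0 (mod P)`: in lowest terms `F = A/B` with `P ∣ A` and `B` coprime to `P` -/
def CongZero (P : ℚ[X]) (F : RatFunc ℚ) : Prop :=
  P ∣ F.num ∧ IsCoprime F.denom P

theorem congZero_of {n k : ℕ} (hn : 0 < n) {F : RatFunc ℚ} (h : V11307.Q.I n k F) :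
    CongZero (cyclotomic n ℚ ^ k) F := by
  have h3 : cyclotomic n ℚ ^ k ∣ F.num := V11307.Q.I.num_dvd hn h
  exact ⟨h3, ((RatFunc.isCoprime_num_denom _).of_isCoprime_of_dvd_left h3).symm⟩

theorem S_eq (N : ℕ) : S N = ∑ k ∈ range (N + 1), V11316.M5ca.tt k :=
  sum_congr rfl fun _ _ => rfl

theorem yes {n : ℕ} (N : ℕ) (h : n % 4 = 3 ∧ (n - 1) / 2 ≤ N % n) :
    CongZero (cyclotomic n ℚ ^ 2) (S N) ∧ CongZero (cyclotomic n ℚ) (S N) := by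
  obtain ⟨m, hm⟩ : ∃ m, n = 4 * m + 3 := ⟨n / 4, by omega⟩
  have key := KS6_51.QT.yes_I (n := n) (h := 2 * m + 1) (m := m) (by omega) hm N (by omega)
  rw [S_eq]
  refine ⟨congZero_of (by omega) key, ?_⟩
  have h1 := congZero_of (by omega) (key.mono (by norm_num : 1 ≤ 2))
  rwa [pow_one] at h1

theorem no {n : ℕ} (hn : Odd n) (N : ℕ) (h : cyclotomic n ℚ ∣ (S N).num) :
    n % 4 = 3 ∧ (n - 1) / 2 ≤ N % n := by
  by_contra hcon
  apply KS6_51.QT.not_I hn N hcon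
  rw [← S_eq, KS6_51.QT.ev]
  obtain ⟨a, ha⟩ := h
  rw [ha, map_mul, KS6_51.QT.ζ_root hn.pos, zero_mul, zero_div]

/-- (1) For every `n ≡ 3 (mod 4)` and every `r ≥ 1`, both `S_{rn-1}(q)` and `S_{rn+(n-1)/2}(q)` are
`≡ 0` modulo `Φ_n(q)²`.  (2) For every odd `n` and every `N ≥ 0`, `S_N(q) ≡ 0` modulo `Φ_n(q)²` if
and only if `n ≡ 3 (mod 4)` and `N mod n ≥ (n-1)/2`, and the same condition is necessary and
sufficient for `S_N(q) ≡ 0` modulo `Φ_n(q)`. -/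
theorem result :
    (∀ n : ℕ, n ≡ 3 [MOD 4] → ∀ r : ℕ, 1 ≤ r →
      CongZero (cyclotomic n ℚ ^ 2) (S (r * n - 1)) ∧
      CongZero (cyclotomic n ℚ ^ 2) (S (r * n + (n - 1) / 2))) ∧
    (∀ n : ℕ, Odd n → ∀ N : ℕ,
      (CongZero (cyclotomic n ℚ ^ 2) (S N) ↔ n % 4 = 3 ∧ (n - 1) / 2 ≤ N % n) ∧
      (CongZero (cyclotomic n ℚ) (S N) ↔ n % 4 = 3 ∧ (n - 1) / 2 ≤ N % n)) := by
  refine ⟨fun n hn r hr => ?_, fun n hn N => ⟨⟨fun h => ?_, fun h => (yes N h).1⟩,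
    ⟨fun h => no hn N h.1, fun h => (yes N h).2⟩⟩⟩
  · have h5 : n % 4 = 3 := hn
    obtain ⟨r, rfl⟩ : ∃ r', r = r' + 1 := ⟨r - 1, by omega⟩
    refine ⟨(yes _ ⟨h5, ?_⟩).1, (yes _ ⟨h5, ?_⟩).1⟩
    · have e : (r + 1) * n - 1 = n - 1 + n * r := by
        have : (r + 1) * n = n + n * r := by ring
        omega
      rw [e, Nat.add_mul_mod_self_left, Nat.mod_eq_of_lt (by omega)]
      omega
    · rw [Nat.mul_add_mod_self_right, Nat.mod_eq_of_lt (by omega)]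
  · exact no hn N ((dvd_pow_self _ two_ne_zero).trans h.1)

end

end Pool.Agent.Results.MP_5ca353_nt.ExactTruncations
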